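import Pool.Agent.Y462.PA.Stm

/-!
# Polynomial activity: two different ways back give exponential activity

Job PA-AU1 of helper462, proved by helper434.
-/

set_option autoImplicit false

open Classical

namespace Pool.Agent.Y434.PA

open Pool.Agent.Y462.SS
open Pool.Agent.Y462.PA

variable {X : Type}

theorem secw_nil (g : T X) : secw g [] = g := rfl

theorem secw_cons (g : T X) (x : X) (v : List X) : secw g (x :: v) = secw (sec g x) v := rfl

theorem secw_append (g : T X) (a b : List X) : secw g (a ++ b) = secw (secw g a) b := by
  induction a generalizing g with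
  | nil => rfl
  | cons x a ih => rw [List.cons_append, secw_cons, secw_cons, ih]

theorem apply_append (g : T X) (a b : List X) : g.1 (a ++ b) = g.1 a ++ (secw g a).1 b := by
  induction a generalizing g with
  | nil => rw [List.nil_append, nil_eq, List.nil_append, secw_nil]
  | cons x a ih =>
    rw [List.cons_append, cons_eq, cons_eq, ih, secw_cons, List.cons_append]

theorem active_iff (g : T X) (v : List X) :
    (∃ w, g.1 (v ++ w) ≠ g.1 v ++ w) ↔ secw g v ≠ 1 := by
  constructor
  · rintro ⟨w, hw⟩ h
    apply hw
    rw [apply_append, h]
    rfl
  · intro h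
    by_contra hc
    push Not at hc
    apply h
    apply Subtype.ext
    apply Equiv.ext
    intro w
    have h1 := hc w
    rw [apply_append] at h1
    exact List.append_cancel_left h1

/-- repetition of a word -/
def rep (A : List X) : ℕ → List X
  | 0 => []
  | n + 1 => A ++ rep A n

theorem rep_length (A : List X) (n : ℕ) : (rep A n).length = n * A.length := by
  induction n with
  | zero => simp [rep]
  | succ n ih => rw [rep, List.length_append, ih]; ring

theorem rep_secw {q : T X} {A : List X} (h : secw q A = q) (n : ℕ) : secw q (rep A n) = q := by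
  induction n with
  | zero => rfl
  | succ n ih => rw [rep, secw_append, h, ih]

/-- the code of a word of bits -/
def enc (A B : List X) : List Bool → List X
  | [] => []
  | b :: l => (bif b then A else B) ++ enc A B l

theorem enc_length {A B : List X} {L : ℕ} (hA : A.length = L) (hB : B.length = L)
    (l : List Bool) : (enc A B l).length = l.length * L := by
  induction l with
  | nil => simp [enc]
  | cons b l ih =>
    rw [enc, List.length_append, ih, List.length_cons]
    cases b
    · simp only [cond_false, hB]; ring
    · simp only [cond_true, hA]; ring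

theorem enc_secw {q : T X} {A B : List X} (hA : secw q A = q) (hB : secw q B = q)
    (l : List Bool) : secw q (enc A B l) = q := by
  induction l with
  | nil => rfl
  | cons b l ih =>
    rw [enc, secw_append]
    cases b
    · simp only [cond_false, hB, ih]
    · simp only [cond_true, hA, ih]

theorem enc_inj {A B : List X} {L : ℕ} (hA : A.length = L) (hB : B.length = L) (hne : A ≠ B)
    (l l' : List Bool) (hl : l.length = l'.length) (h : enc A B l = enc A B l') : l = l' := by
  induction l generalizing l' with
  | nil =>
    cases l' with
    | nil => rfl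
    | cons b' l' => simp at hl
  | cons b l ih =>
    cases l' with
    | nil => simp at hl
    | cons b' l' =>
      have hl2 : l.length = l'.length := by simpa using hl
      rw [enc, enc] at h
      have h2 := List.append_inj h (by cases b <;> cases b' <;> simp [hA, hB])
      have h3 := ih l' hl2 h2.2
      have h4 := h2.1
      cases b <;> cases b'
      · rw [h3]
      · exact absurd h4.symm (by simpa using hne)
      · exact absurd h4 (by simpa using hne)
      · rw [h3]

theorem exists_lt (c K e : ℕ) : ∃ n : ℕ, c * (K * (n + 1)) ^ e < 2 ^ n := by
  have h1 := tendsto_pow_const_div_const_pow_of_one_lt e (by norm_num : (1 : ℝ) < 2)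
  have h2 : (0 : ℝ) < 1 / (2 * (c * K ^ e) + 1) := by positivity
  have h3 := (h1.eventually (gt_mem_nhds h2))
  obtain ⟨n, hn, hn1⟩ := (h3.and (Filter.eventually_ge_atTop 1)).exists
  obtain ⟨m, rfl⟩ : ∃ m, n = m + 1 := ⟨n - 1, by omega⟩
  refine ⟨m, ?_⟩
  rw [div_lt_div_iff₀ (by positivity) (by positivity)] at hn
  have h5 : ((m + 1 : ℕ) : ℝ) ^ e * (2 * (c * K ^ e)) < 2 * 2 ^ m := by
    have : (0 : ℝ) ≤ ((m + 1 : ℕ) : ℝ) ^ e := by positivity
    rw [pow_succ] at hn
    nlinarith
  have h6 : (c : ℝ) * (K * (m + 1)) ^ e < 2 ^ m := by
    rw [mul_pow]
    push_cast at h5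
    nlinarith
  exact_mod_cast h6

theorem t_au1 : S_AU1 := by
  intro X hX g hg u x y v w hq hxy hA hB
  obtain ⟨c, e, hc⟩ := hg
  set q : T X := secw g u with hqdef
  set A : List X := x :: v with hAdef
  set B : List X := y :: w with hBdef
  set A' : List X := rep A B.length with hA'
  set B' : List X := rep B A.length with hB'
  set L : ℕ := A.length * B.length with hL
  have hAl : A'.length = L := by rw [hA', rep_length, hL]; ring
  have hBl : B'.length = L := by rw [hB', rep_length]
  have hAs : secw q A' = q := rep_secw hA _
  have hBs : secw q B' = q := rep_secw hB _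
  have hne : A' ≠ B' := by
    intro h
    have e1 : A' = x :: (v ++ rep A w.length) := by
      rw [hA', hBdef, List.length_cons, rep, hAdef, List.cons_append]
    have e2 : B' = y :: (w ++ rep B v.length) := by
      rw [hB', hAdef, List.length_cons, rep, hBdef, List.cons_append]
    rw [e1, e2] at h
    exact hxy (List.cons.inj h).1
  -- the lower bound
  have hlow : ∀ n : ℕ, 2 ^ n ≤ c * (u.length + n * L + 1) ^ e := by
    intro n
    refine le_trans ?_ (hc (u.length + n * L))
    set S : Set (List X) := {v | v.length = u.length + n * L ∧ ∃ w, g.1 (v ++ w) ≠ g.1 v ++ w}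
      with hS
    have hSfin : S.Finite :=
      (List.finite_length_eq X (u.length + n * L)).subset (fun v hv => hv.1)
    set f : (Fin n → Bool) → List X := fun b => u ++ enc A' B' (List.ofFn b) with hf
    have hfinj : Function.Injective f := by
      intro b b' h
      have h1 : enc A' B' (List.ofFn b) = enc A' B' (List.ofFn b') := List.append_cancel_left h
      have h2 := enc_inj hAl hBl hne _ _ (by simp) h1
      exact List.ofFn_injective h2
    have hfS : Set.range f ⊆ S := by
      rintro _ ⟨b, rfl⟩
      refine ⟨?_, ?_⟩
      · rw [hf]
        simp only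
        rw [List.length_append, enc_length hAl hBl, List.length_ofFn]
      · rw [active_iff]
        rw [hf]
        simp only
        rw [secw_append, ← hqdef, enc_secw hAs hBs]
        exact hq
    have h3 : (Set.range f).ncard = 2 ^ n := by
      rw [← Set.image_univ, Set.ncard_image_of_injective _ hfinj, Set.ncard_univ,
        Nat.card_eq_fintype_card]
      simp
    rw [← h3]
    exact Set.ncard_le_ncard hfS hSfin
  obtain ⟨n, hn⟩ := exists_lt c (u.length + L + 1) e
  have h1 := hlow n
  have h2 : c * (u.length + n * L + 1) ^ e ≤ c * ((u.length + L + 1) * (n + 1)) ^ e := by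
    apply Nat.mul_le_mul_left
    apply Nat.pow_le_pow_left
    nlinarith [Nat.zero_le (u.length * n)]
  omega

end Pool.Agent.Y434.PA
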